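import Mathlib
import Pool.Agent.W529.Nod.Main
import Pool.Agent.W529.Nod.T_INF
import Pool.Agent.W529.Nod.T_TOR

/-!
# The motivic Tate conjecture for even-dimensional varieties from one ordinary double point and the
characteristic polynomials of finitely many Frobenius elements

Let `X` be a smooth projective variety of EVEN dimension `n` over a finitely generated field `k` of
characteristic zero, `M` the motive `h^n(X)(n/2)` or a direct factor of it on which the polarisation
is the restriction of the cup product (the primitive part; for a surface the orthogonal complement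
of the Neron-Severi group), `V` its `ℓ`-adic realisation and `B` the cup product on `V`: it is
symmetric, nondegenerate and invariant under the Galois group `Γ_k`.  As `B` is a morphism of
motives, the motivic Galois group satisfies `G_ℓ(M) ⊆ 𝒢_k(M) ⊆ O(V, B)`.  Suppose the following.

(1) At some place, not above `ℓ`, `X` acquires one ordinary double point with vanishing cycle `D`
  (or `X` lies in a pencil over a curve over `k` with such a fibre).  By the Picard-Lefschetz formula
  some element `r` of the inertia group acts as the reflection `v ↦ v - 2 B(D, v)/B(D, D) D`.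

(2) There are Frobenius elements `γ_j` at places of good reduction all of whose powers have separable
  characteristic polynomials on `V`, and which exclude every dimension `0 < d < dim V` as follows:
  the characteristic polynomial of some `γ_j` has no divisor of degree `d` over `ℚ_ℓ`, or, if `d = 1`
  or `d = dim V - 1`, two of them are `(X ∓ 1) Q`, `(X ∓ 1) Q'`, where no root of `Q Q'` is a root of
  unity and `Q(1) Q(-1) Q'(1) Q'(-1)` is not a square in `ℚ_ℓ`, and some `γ_j` has no eigenvalues in
  `ℚ_ℓ` except `1` and `-1`.

The second possibility in (2) is necessary if `dim V` is odd (for example for K3 surfaces of Picard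
number one), because then every Frobenius element has an eigenvalue `1` or `-1`: there two
Frobenius elements with `Q`, `Q'` irreducible and different discriminants are sufficient.  If
`dim V` is even, one Frobenius element with irreducible characteristic polynomial is sufficient.  All
conditions can be checked by counting points over finite fields.

Then

(a) every subgroup of finite index of `Γ_k` acts irreducibly on `V`;

(b) every multilinear form on `V` (tensor in `V^{⊗ n}`) that is invariant under `Γ_k` is invariant
  under the full orthogonal group `O(V, B)`;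

(c) every multilinear form on `V` that is invariant under some open subgroup of `Γ_k` is invariant
  under `SO(V, B)`.

Since `V` is semisimple by (a), its `ℓ`-adic monodromy group is reductive and determined by its
invariants, so (b) says `G_{ℓ,k}(M) = O(V, B)`, hence `G_{ℓ,k}(M) = 𝒢_k(M)_{ℚ_ℓ}`: Q1 holds for `M`, for
both categories of motives.  Similarly (c) says `SO(V, B) ⊆ G_{ℓ,k'}(M)` for all finite extensions
`k'` of `k`; for motives for absolute Hodge cycles this is the Mumford-Tate conjecture
`G_ℓ(M)° = SO(V, B) = G_σ(M)_{ℚ_ℓ}`.  Moreover all Tate classes of `Γ_k` on all tensor powers of `M` are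
spanned by products of classes of `B`, which are algebraic for example for complete intersections.

The variety `X` need not be related to abelian varieties or K3 surfaces; no Hodge numbers, no
monodromy of families over `ℂ`, no semisimplicity and no irreducibility are assumed.

In the Lean statement `Γ` is the Galois group; the data are arbitrary with these properties.

The proof.  Let `𝔤` be the Lie algebra of the endomorphisms of `V` that kill all potentially
invariant forms; `𝔤 ⊆ so(V, B)` is stable under conjugation by `Γ`.  The logarithms (with respect to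
suitable homomorphisms from the multiplicative group to `ℤ`) of the eigenvalues of a Frobenius
element give `𝔤 ≠ 0`.  Conjugating by the reflection one finds `D ∧ X D ∈ 𝔤` for `X ∈ 𝔤`, where `a ∧ b`
is `v ↦ B(a, v) b - B(b, v) a`.  The space `S_D = {w : D ∧ w ∈ 𝔤}` is `𝔤`-stable with `Λ² S_D ⊆ 𝔤`, and it
is nondegenerate by a Clifford argument.  If two translates `D`, `D'` are not orthogonal, then
`D' ∈ S_D`: otherwise `S_D' ∩ D^⊥` would be isotropic and this leads to an isotropic vector in the
radical.  So inequivalent translates are orthogonal, there are finitely many classes, a subgroup of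
finite index preserves `S_D`, and `S_D = V`, `𝔤 = so(V, B)`.  To pass to the groups we use that forms
killed by `a ∧ b` are invariant under products of two reflections, and the theorem of Cartan and
Dieudonné.
-/

namespace Pool.Agent.Results.MP_bbcdf5_ag.EvenNodal

open Module Polynomial

/-- `g` preserves the bilinear form `B`. -/
def IsIsometry {k V : Type*} [Field k] [AddCommGroup V] [Module k V] (B : V →ₗ[k] V →ₗ[k] k)
    (g : V →ₗ[k] V) : Prop :=
  ∀ u v, B (g u) (g v) = B u v

/-- The multilinear form `φ` is invariant under `g`. -/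
def FixesForm {k V : Type*} [Field k] [AddCommGroup V] [Module k V] {n : ℕ} (g : V →ₗ[k] V)
    (φ : MultilinearMap k (fun _ : Fin n => V) k) : Prop :=
  ∀ v : Fin n → V, φ (fun l => g (v l)) = φ v

/-- All powers of the elements `γ j` have separable characteristic polynomials, and the
characteristic polynomials of the `γ j` exclude every dimension `0 < d < dim V` of a potentially
stable subspace: some `γ j` has a characteristic polynomial without divisors of degree `d`, or
`d = 1` or `d = dim V - 1`, some `γ j` has no eigenvalues in `k` besides `1` and `-1`, and for some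
`γ i`, `γ j` with characteristic polynomials `(X - e) Q`, `(X - e') Q'`, `e, e' = ±1`, no root of `Q Q'`
is a root of unity and `Q(1) Q(-1) Q'(1) Q'(-1)` is not a square. -/
def ExcludeDimensions {k V Γ J : Type*} [Field k] [AddCommGroup V] [Module k V]
    [FiniteDimensional k V] [Group Γ] (ρ : Representation k Γ V) (γ : J → Γ) : Prop :=
  (∀ j, ∀ M : ℕ, 0 < M → (ρ (γ j ^ M)).charpoly.Separable) ∧
  ∀ d : ℕ, 0 < d → d < finrank k V →
    (∃ j, ∀ f : k[X], f ∣ (ρ (γ j)).charpoly → f.natDegree ≠ d) ∨
    ((d = 1 ∨ d + 1 = finrank k V) ∧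
      (∃ j, ∀ x : k, (ρ (γ j)).charpoly.IsRoot x → x = 1 ∨ x = -1) ∧
      ∃ (i j : J) (Q Q' : k[X]) (e e' : k), (e = 1 ∨ e = -1) ∧ (e' = 1 ∨ e' = -1) ∧
        (ρ (γ i)).charpoly = (X - C e) * Q ∧ (ρ (γ j)).charpoly = (X - C e') * Q' ∧
        (∀ z : AlgebraicClosure k, aeval z (Q * Q') = 0 → ∀ m : ℕ, 0 < m → z ^ m ≠ 1) ∧
        ¬ IsSquare (Q.eval 1 * Q.eval (-1) * (Q'.eval 1 * Q'.eval (-1))))

/-- A group of isometries of `(V, B)`, `dim V ≥ 2`, which contains a reflection and elements `γ j`
satisfying `ExcludeDimensions`: (a) all subgroups of finite index act irreducibly, (b) every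
invariant multilinear form is invariant under all isometries, (c) every multilinear form which is
invariant under a subgroup of finite index is invariant under all isometries of determinant one. -/
theorem result (ℓ : ℕ) [Fact ℓ.Prime]
    {V : Type} [AddCommGroup V] [Module ℚ_[ℓ] V] [FiniteDimensional ℚ_[ℓ] V]
    (hdim : 2 ≤ finrank ℚ_[ℓ] V)
    {Γ : Type} [Group Γ] (ρ : Representation ℚ_[ℓ] Γ V)
    (B : V →ₗ[ℚ_[ℓ]] V →ₗ[ℚ_[ℓ]] ℚ_[ℓ]) (hsymm : ∀ u v, B u v = B v u)
    (hnondeg : ∀ u, (∀ v, B v u = 0) → u = 0)
    (hB : ∀ s, IsIsometry B (ρ s))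
    {J : Type} (γ : J → Γ) (hγ : ExcludeDimensions ρ γ)
    (r : Γ) (D : V) (hD : B D D ≠ 0) (hr : ∀ v, ρ r v = v - (2 * B D v / B D D) • D) :
    (∀ Δ : Subgroup Γ, Δ.FiniteIndex → ∀ U : Submodule ℚ_[ℓ] V,
      (∀ s ∈ Δ, ∀ u ∈ U, ρ s u ∈ U) → U = ⊥ ∨ U = ⊤) ∧
    (∀ (n : ℕ) (φ : MultilinearMap ℚ_[ℓ] (fun _ : Fin n => V) ℚ_[ℓ]),
      (∀ s, FixesForm (ρ s) φ) → ∀ g : V →ₗ[ℚ_[ℓ]] V, IsIsometry B g → FixesForm g φ) ∧
    (∀ (n : ℕ) (φ : MultilinearMap ℚ_[ℓ] (fun _ : Fin n => V) ℚ_[ℓ]),
      (∃ Δ : Subgroup Γ, Δ.FiniteIndex ∧ ∀ s ∈ Δ, FixesForm (ρ s) φ) →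
      ∀ g : V →ₗ[ℚ_[ℓ]] V, IsIsometry B g → LinearMap.det g = 1 → FixesForm g φ) := by
  have hirr := fun Δ hΔ U hU => Pool.Agent.W529.Nod.irr_of_excluded B hsymm hnondeg ρ hB γ hγ Δ hΔ
    U hU
  have hJ : Nonempty J := by
    rcases hγ.2 1 one_pos (by omega) with ⟨j, -⟩ | ⟨-, ⟨j, -⟩, -⟩ <;> exact ⟨j⟩
  obtain ⟨h1, h2⟩ := Pool.Agent.W529.Nod.nodal Pool.Agent.W529.Nod.t_INF Pool.Agent.W529.Nod.t_TOR
    ρ B hsymm hnondeg hB hdim (γ (Classical.arbitrary J)) (hγ.1 _) hirr hD r hr
  exact ⟨hirr, fun n φ hφ g hg => h2 n φ hφ g hg, fun n φ hφ g hg hdet => h1 n φ hφ g hg hdet⟩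

end Pool.Agent.Results.MP_bbcdf5_ag.EvenNodal
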