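import Pool.Agent.W547.GAR.Main

/-!
# The l-adic monodromy group of surfaces and an arbitrary motive

Let `k` be a finitely generated field of characteristic `0` with absolute Galois group `Γ`, let
`S_0, ..., S_(r-1)` be smooth projective surfaces over `k`, and let `T_i` be the transcendental
part of `H^2(S_i, ℚ_ℓ(1))` (the orthogonal complement of the classes of divisors over the algebraic
closure), `T = ⊕ T_i`.  The structure `GR` consists of the representation of `Γ` on `T`, the
intersection form `Q`, the Lie algebra `L` of the image of `Γ`, an embedding `ι` of `ℚ_ℓ` into the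
complex numbers (that is `ℂ_ℓ`), and the Sen operator `x` of a specialisation to a number field at
a place above `ℓ`: it lies in `L ⊗ ℂ` and is `1`, `0`, `-1` on the pieces of the Hodge-Tate
decomposition, which have dimensions `p_i`, `q_i`, `p_i` on `T_i`, where `p_i` is the geometric
genus; `c` says to which surface a basis vector of `T` belongs.

The conditions `GR.Big`: the endomorphisms of `T` commuting with an open subgroup of `Γ` are the
scalars on the `T_i`; the identity component of the Zariski closure of the image of `Γ` in `GL(T)`
is reductive, in the form of the unitary trick (`GR.Red`); `p_i` and `q_i` are coprime; and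
`2 p_i^2 (p_i^2 + 1) < (q_i - 2 p_i) (q_i + p_i)`, or `p_i = 1` and `q_i` is not `0` or `2`.  The
rank of `T_i` is `n_i = 2 p_i + q_i`.

Let `N` be an **arbitrary** motive over `k` (of any weights and any rank), `W` its `ℓ`-adic
realization.  The structure `GJ` consists of the representation `ρ` of `Γ` on `W` and of the Lie
algebra `M` of the image of `Γ` in the automorphisms of `T ⊕ W` (a form on `T` with values in `W`
is invariant under an open subgroup of `Γ` if and only if it is killed by `M`; the projection of
`M` to the operators on `T` is `L`).  `MC` is the complexification of `M`, that is the Lie algebra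
of `G_ℓ(T ⊕ N)`, extended to `ℂ`; `NC` is the complexification of the projection to the operators
on `W`, that is the Lie algebra of the image of `Γ` in the automorphisms of `W`.

The only condition on `N`: the dimension of the Lie algebra `NC` of its monodromy group is smaller
than `dim so(T_i) = n_i (n_i - 1) / 2`, for all `i`.

We prove that `MC` is the product of `⊕ so(T_i)` and `NC`: the identity component of the `ℓ`-adic
monodromy group of `T ⊕ N` is `∏ SO(T_i) × G_ℓ(N)^0`.

On the other hand the motivic Galois group and the Mumford-Tate group of `T ⊕ N` are contained in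
the products of those of the `T_i` and of `N`, the identity components of the former are contained
in `SO(T_i)`, and `G_ℓ` is contained in the motivic Galois group.  So the motivic Mumford-Tate
conjecture `G_ℓ^0 = G_σ ⊗ ℚ_ℓ`, which by the cited theorem is the essential part of the question
`G_ℓ = 𝒢 ⊗ ℚ_ℓ`, holds for `T ⊕ N`, and for all motives in the tannakian category generated by it,
if it holds for `N`.
-/

open Matrix Finset Module

namespace Pool.Agent.Results.MP_bbcdf5_ag.SurfacesPlusAnyMotive

open Pool.Agent.W544.PG Pool.Agent.W547.GAW Pool.Agent.W547.GAR

/-- The Lie algebra of the `ℓ`-adic monodromy group of surfaces and an arbitrary motive. -/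
theorem result {ℓ : ℕ} [Fact ℓ.Prime] {Γ : Type} [Group Γ] [TopologicalSpace Γ]
    {n r w : ℕ} (T : GR ℚ_[ℓ] Γ n) (c : Fin n → Fin r) (p q : Fin r → ℕ) (hT : T.Big c p q)
    (W : GJ T w)
    (hw : ∀ i, 2 * finrank ℂ W.NC < (2 * p i + q i) * (2 * p i + q i) - (2 * p i + q i))
    (Z : Matrix (Fin n) (Fin n) ℂ) (V : Matrix (Fin w) (Fin w) ℂ) :
    (Z, V) ∈ W.MC ↔ (Zᵀ * T.Q.map T.ι + T.Q.map T.ι * Z = 0 ∧ BD c Z) ∧ V ∈ W.NC :=
  main W hT hw (Z, V)

end Pool.Agent.Results.MP_bbcdf5_ag.SurfacesPlusAnyMotive
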